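import Mathlib

/-!
# A variety of non-abelian groups in which every group has an integral

Let `p` be an odd prime.  Every group `G` of exponent dividing `p` and nilpotency class at most two
is the derived subgroup of some group `H`, while the variety of all these groups is not abelian.

Proof. With `2 k = 1 + p` the operation `x ⊕ y = x y ⁅y, x⁆ ^ k` turns `G` into a vector space over
the field with `p` elements, in which the derived subgroup `G'` is a subspace.  Let `r` be a linear
retraction of `G` onto `G'` and put `c x = (r x) ^ 2`.  Then `σ x = x⁻¹ (c x)` is an automorphism of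
order two of the group `G`, which is the identity on `G'` and the inversion on `G / G'`.  The
semidirect product `H` of `G` and an infinite cyclic group acting by `σ` has derived subgroup `G`.
-/

set_option autoImplicit false

namespace Pool.Agent.Results.MP_fbf3cb_al.NonabelianVarietyAllIntegrable

universe u

open scoped commutatorElement

/-- The group `G` belongs to the variety of groups defined by the set `W` of laws (words in the
letters `0, 1, 2, …`): every word in `W` takes only the value `1` in `G`. -/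
def InVariety (W : Set (FreeGroup ℕ)) (G : Type u) [Group G] : Prop :=
  ∀ w ∈ W, ∀ f : FreeGroup ℕ →* G, f w = 1

/-- The laws `x ^ p = 1` and `⁅⁅x, y⁆, z⁆ = 1`, which define the variety of all groups of exponent
dividing `p` and nilpotency class at most two. -/
def laws (p : ℕ) : Set (FreeGroup ℕ) :=
  {FreeGroup.of 0 ^ p, ⁅⁅FreeGroup.of 0, FreeGroup.of 1⁆, FreeGroup.of 2⁆}

/-- The group `G` is integrable: some group `H` is an integral of `G`, that is, the derived
subgroup of `H` is isomorphic to `G`. -/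
def Integrable (G : Type u) [Group G] : Prop :=
  ∃ (H : Type u) (_ : Group H), Nonempty (commutator H ≃* G)

/-! ### class two -/

section classTwo

variable {G : Type u} [Group G]

/-- a group of class at most two -/
def ClassTwo (G : Type u) [Group G] : Prop := ∀ x y z : G, ⁅x, y⁆ * z = z * ⁅x, y⁆

theorem cm_mul_left (h : ClassTwo G) (x y z : G) : ⁅x * y, z⁆ = ⁅x, z⁆ * ⁅y, z⁆ := by
  have h1 : ⁅x * y, z⁆ = x * ⁅y, z⁆ * (z * x⁻¹ * z⁻¹) := by
    simp only [commutatorElement_def]; group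
  rw [h1, ← h y z x, h y z ⁅x, z⁆ |>.symm, mul_assoc]
  simp only [commutatorElement_def]
  group

theorem cm_mul_right (h : ClassTwo G) (x y z : G) : ⁅x, y * z⁆ = ⁅x, y⁆ * ⁅x, z⁆ := by
  have e : ∀ a b : G, ⁅a, b⁆ = ⁅b, a⁆⁻¹ := fun a b => (commutatorElement_inv b a).symm
  rw [e x (y * z), cm_mul_left h, mul_inv_rev, ← e, ← e, h]

theorem cm_pow_left (h : ClassTwo G) (x z : G) (n : ℕ) : ⁅x ^ n, z⁆ = ⁅x, z⁆ ^ n := by
  induction n with
  | zero => simp
  | succ n ih => rw [pow_succ, cm_mul_left h, ih, pow_succ]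

theorem central_of_mem (h : ClassTwo G) {x : G} (hx : x ∈ commutator G) (y : G) :
    x * y = y * x := by
  have h1 : commutator G ≤ Subgroup.center G := by
    rw [commutator_def, Subgroup.commutator_le]
    intro a _ b _
    rw [Subgroup.mem_center_iff]
    intro g
    exact (h a b g).symm
  exact ((Subgroup.mem_center_iff.1 (h1 hx)) y).symm

theorem cm_mem (x y : G) : ⁅x, y⁆ ∈ commutator G :=
  Subgroup.commutator_mem_commutator (Subgroup.mem_top x) (Subgroup.mem_top y)

theorem cm_central_left (h : ClassTwo G) {x : G} (hx : x ∈ commutator G) (y : G) :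
    ⁅x, y⁆ = 1 := by
  rw [commutatorElement_eq_one_iff_mul_comm]
  exact central_of_mem h hx y

theorem cm_central_right (h : ClassTwo G) {x : G} (hx : x ∈ commutator G) (y : G) :
    ⁅y, x⁆ = 1 := by
  rw [commutatorElement_eq_one_iff_mul_comm]
  exact (central_of_mem h hx y).symm

/-- a copy of `G`, which carries the additive structure -/
@[ext] structure Lz (G : Type u) : Type u where
  /-- the element of `G` -/
  val : G

/-- the addition -/
def ad (k : ℕ) (x y : G) : G := x * y * ⁅y, x⁆ ^ k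

theorem pow_mem' (x y : G) (k : ℕ) : ⁅x, y⁆ ^ k ∈ commutator G := pow_mem (cm_mem x y) k

theorem ad_comm' (h : ClassTwo G) {p k : ℕ} (hp : ∀ x : G, x ^ p = 1) (hk : 2 * k = p + 1)
    (x y : G) : ad k x y = ad k y x := by
  unfold ad
  have e1 : x * y = ⁅x, y⁆ * (y * x) := by
    simp only [commutatorElement_def]; group
  have e2 : ⁅y, x⁆ = ⁅x, y⁆⁻¹ := (commutatorElement_inv x y).symm
  have e3 : ⁅x, y⁆ ^ (2 * k) = ⁅x, y⁆ := by
    rw [hk, pow_succ, hp, one_mul]
  rw [e2, e1, h x y (y * x), mul_assoc]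
  congr 1
  rw [inv_pow, mul_inv_eq_iff_eq_mul, ← pow_add, ← two_mul, e3]

theorem ad_assoc' (h : ClassTwo G) (k : ℕ) (x y z : G) :
    ad k (ad k x y) z = ad k x (ad k y z) := by
  unfold ad
  rw [cm_mul_right h, cm_central_right h (pow_mem' y x k), mul_one, cm_mul_right h,
    cm_mul_left h, cm_central_left h (pow_mem' z y k), mul_one, cm_mul_left h]
  have c1 := central_of_mem h (pow_mem' y x k)
  have c2 := central_of_mem h (pow_mem' z x k)
  have c3 := central_of_mem h (pow_mem' z y k)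
  have m1 : (⁅z, x⁆ * ⁅z, y⁆) ^ k = ⁅z, x⁆ ^ k * ⁅z, y⁆ ^ k :=
    (show Commute ⁅z, x⁆ ⁅z, y⁆ from h z x _).mul_pow k
  have m2 : (⁅y, x⁆ * ⁅z, x⁆) ^ k = ⁅y, x⁆ ^ k * ⁅z, x⁆ ^ k :=
    (show Commute ⁅y, x⁆ ⁅z, x⁆ from h y x _).mul_pow k
  rw [m1, m2]
  calc x * y * ⁅y, x⁆ ^ k * z * (⁅z, x⁆ ^ k * ⁅z, y⁆ ^ k)
      = x * y * (⁅y, x⁆ ^ k * (z * (⁅z, x⁆ ^ k * ⁅z, y⁆ ^ k))) := by simp only [mul_assoc]
    _ = x * y * ((z * (⁅z, x⁆ ^ k * ⁅z, y⁆ ^ k)) * ⁅y, x⁆ ^ k) := by rw [c1]
    _ = x * y * (z * (⁅z, x⁆ ^ k * (⁅z, y⁆ ^ k * ⁅y, x⁆ ^ k))) := by simp only [mul_assoc]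
    _ = x * y * (z * ((⁅z, y⁆ ^ k * ⁅y, x⁆ ^ k) * ⁅z, x⁆ ^ k)) := by rw [c2 (⁅z, y⁆ ^ k * ⁅y, x⁆ ^ k)]
    _ = x * (y * z * ⁅z, y⁆ ^ k) * (⁅y, x⁆ ^ k * ⁅z, x⁆ ^ k) := by simp only [mul_assoc]

theorem ad_central (h : ClassTwo G) (k : ℕ) (x : G) {y : G} (hy : y ∈ commutator G) :
    ad k x y = x * y := by
  unfold ad
  rw [cm_central_left h hy, one_pow, mul_one]

theorem mul_eq_ad (h : ClassTwo G) (k : ℕ) (x y : G) :
    x * y = ad k (ad k x y) (⁅x, y⁆ ^ k) := by
  rw [ad_central h k _ (pow_mem' x y k)]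
  unfold ad
  have e2 : ⁅y, x⁆ = ⁅x, y⁆⁻¹ := (commutatorElement_inv x y).symm
  rw [e2, inv_pow, inv_mul_cancel_right]

/-- the additive group structure -/
@[reducible] def lzGroup (h : ClassTwo G) {p k : ℕ} (hp : ∀ x : G, x ^ p = 1)
    (hk : 2 * k = p + 1) : AddCommGroup (Lz G) :=
  letI : Zero (Lz G) := ⟨⟨1⟩⟩
  letI : Add (Lz G) := ⟨fun x y => ⟨ad k x.val y.val⟩⟩
  letI : Neg (Lz G) := ⟨fun x => ⟨x.val⁻¹⟩⟩
  { add_assoc := fun x y z => Lz.ext (ad_assoc' h k x.val y.val z.val)
    zero_add := fun x => Lz.ext (by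
      change ad k (1 : G) x.val = x.val
      unfold ad; simp)
    add_zero := fun x => Lz.ext (by
      change ad k x.val (1 : G) = x.val
      unfold ad; simp)
    neg_add_cancel := fun x => Lz.ext (by
      change ad k (x.val⁻¹) x.val = (1 : G)
      unfold ad
      have : ⁅x.val, x.val⁻¹⁆ = 1 := by simp [commutatorElement_def]
      rw [this]; simp)
    add_comm := fun x y => Lz.ext (ad_comm' h hp hk x.val y.val)
    nsmul := nsmulRec
    zsmul := zsmulRec }

theorem exists_retr0 {K : Type} [Field K] {V : Type u} [AddCommGroup V] [Module K V]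
    (S0 : AddSubgroup V) (hS : ∀ (c : K), ∀ x ∈ S0, c • x ∈ S0) :
    ∃ f : V → V, (∀ x y, f (x + y) = f x + f y) ∧ (∀ x, f x ∈ S0) ∧ ∀ s ∈ S0, f s = s := by
  let S : Submodule K V := { S0 with smul_mem' := fun c x hx => hS c x hx }
  obtain ⟨f, hf⟩ := LinearMap.exists_leftInverse_of_injective S.subtype (Submodule.ker_subtype S)
  exact ⟨fun x => (f x : V), fun x y => congrArg Subtype.val (map_add f x y), fun x => (f x).2,
    fun s hs => congrArg Subtype.val (LinearMap.congr_fun hf ⟨s, hs⟩)⟩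

theorem exists_retr (p : ℕ) (hp : p.Prime) {V : Type u} [AddCommGroup V]
    (hV : ∀ x : V, p • x = 0) (S0 : AddSubgroup V) :
    ∃ f : V → V, (∀ x y, f (x + y) = f x + f y) ∧ (∀ x, f x ∈ S0) ∧ ∀ s ∈ S0, f s = s := by
  have : Fact p.Prime := ⟨hp⟩
  let m : Module (ZMod p) V := AddCommGroup.zmodModule hV
  refine exists_retr0 (K := ZMod p) S0 ?_
  intro c x hx
  have h1 : c • x = c.val • x := by
    conv_lhs => rw [← ZMod.natCast_zmod_val c]
    exact Nat.cast_smul_eq_nsmul _ _ _
  rw [h1]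
  exact nsmul_mem hx _

/-- a retraction of `G` onto its derived subgroup which is additive for the new addition -/
theorem exists_retraction (h : ClassTwo G) {p k : ℕ} (hpr : p.Prime) (hp : ∀ x : G, x ^ p = 1)
    (hk : 2 * k = p + 1) :
    ∃ r : G → G, (∀ x, r x ∈ commutator G) ∧ (∀ z ∈ commutator G, r z = z) ∧
      ∀ x y, r (x * y) = r x * r y * ⁅x, y⁆ ^ k := by
  let _ : AddCommGroup (Lz G) := lzGroup h hp hk
  have hadd : ∀ x y : Lz G, (x + y).val = ad k x.val y.val := fun _ _ => rfl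
  have hzero : (0 : Lz G).val = 1 := rfl
  have hneg : ∀ x : Lz G, (-x).val = x.val⁻¹ := fun _ => rfl
  have hsm : ∀ (n : ℕ) (x : Lz G), (n • x).val = x.val ^ n := by
    intro n x
    induction n with
    | zero => rw [zero_nsmul, pow_zero, hzero]
    | succ n ih =>
      rw [succ_nsmul, hadd, ih]
      unfold ad
      have : ⁅x.val, x.val ^ n⁆ = 1 := by
        rw [commutatorElement_eq_one_iff_mul_comm]
        exact (pow_succ' x.val n).symm.trans (pow_succ x.val n)
      rw [this, one_pow, mul_one, pow_succ]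
  let S0 : AddSubgroup (Lz G) :=
    { carrier := {x | x.val ∈ commutator G}
      add_mem' := by
        intro a b ha hb
        change (a + b).val ∈ commutator G
        rw [hadd, ad_central h k _ hb]
        exact mul_mem ha hb
      zero_mem' := one_mem (commutator G)
      neg_mem' := by
        intro a ha
        exact (commutator G).inv_mem ha }
  obtain ⟨f, hf1, hf2, hf3⟩ := exists_retr p hpr (fun x => Lz.ext (by rw [hsm, hp, hzero])) S0
  refine ⟨fun x => (f ⟨x⟩).val, fun x => hf2 ⟨x⟩, ?_, ?_⟩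
  · intro z hz
    exact congrArg Lz.val (hf3 ⟨z⟩ hz)
  · intro x y
    have e1 : (⟨x * y⟩ : Lz G) = ⟨x⟩ + ⟨y⟩ + ⟨⁅x, y⁆ ^ k⟩ := Lz.ext (mul_eq_ad h k x y)
    have e2 : f ⟨⁅x, y⁆ ^ k⟩ = ⟨⁅x, y⁆ ^ k⟩ := hf3 _ (pow_mem' x y k)
    change (f ⟨x * y⟩).val = _
    rw [e1, hf1, hf1, e2, hadd, ad_central h k _ (pow_mem' x y k), hadd,
      ad_central h k _ (hf2 ⟨y⟩)]

/-- in a group of odd prime exponent and class at most two there is an automorphism which sends
every `x` to a product of `x⁻¹` and an element of the derived subgroup -/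
theorem exists_aut (h : ClassTwo G) {p k : ℕ} (hpr : p.Prime) (hp : ∀ x : G, x ^ p = 1)
    (hk : 2 * k = p + 1) :
    ∃ σ : MulAut G, ∀ x, ∃ c ∈ commutator G, σ x = x⁻¹ * c := by
  obtain ⟨r, hr1, hr2, hr3⟩ := exists_retraction h hpr hp hk
  have hr0 : r 1 = 1 := hr2 1 (one_mem _)
  have hc : ∀ x y, r x * y = y * r x := fun x y => central_of_mem h (hr1 x) y
  have hinv : ∀ x, r x⁻¹ = (r x)⁻¹ := by
    intro x
    have h1 := hr3 x x⁻¹
    have h2 : ⁅x, x⁻¹⁆ = 1 := by simp [commutatorElement_def]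
    rw [mul_inv_cancel, hr0, h2, one_pow, mul_one] at h1
    exact (inv_eq_of_mul_eq_one_right h1.symm).symm
  have hs : ∀ x y : G, (x * y)⁻¹ * (r (x * y)) ^ 2 = (x⁻¹ * (r x) ^ 2) * (y⁻¹ * (r y) ^ 2) := by
    intro x y
    have c1 : Commute (r x * r y) (⁅x, y⁆ ^ k) := by
      have := central_of_mem h (pow_mem' x y k) (r x * r y)
      exact this.symm
    have c2 : Commute (r x) (r y) := hc x (r y)
    have c0 : ⁅x, y⁆ ^ (2 * k) = ⁅x, y⁆ := by rw [hk, pow_succ, hp, one_mul]
    rw [hr3, c1.mul_pow, c2.mul_pow, ← pow_mul, mul_comm k 2, c0]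
    have c3 : (r y) ^ 2 * ⁅x, y⁆ = ⁅x, y⁆ * (r y) ^ 2 :=
      (central_of_mem h (pow_mem (hr1 y) 2) _)
    have c4 : (r x) ^ 2 * (⁅x, y⁆ * (r y) ^ 2) = ⁅x, y⁆ * (r y) ^ 2 * (r x) ^ 2 :=
      (central_of_mem h (pow_mem (hr1 x) 2) _)
    have c5 : (r y) ^ 2 * (r x) ^ 2 = (r x) ^ 2 * (r y) ^ 2 :=
      (central_of_mem h (pow_mem (hr1 y) 2) _)
    have c6 : y⁻¹ * (r x) ^ 2 = (r x) ^ 2 * y⁻¹ :=
      (central_of_mem h (pow_mem (hr1 x) 2) _).symm
    rw [mul_assoc ((r x) ^ 2), c3, c4, mul_assoc, c5]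
    calc (x * y)⁻¹ * (⁅x, y⁆ * ((r x) ^ 2 * (r y) ^ 2))
        = x⁻¹ * (y⁻¹ * (r x) ^ 2) * (r y) ^ 2 := by
          simp only [commutatorElement_def]; group
      _ = (x⁻¹ * (r x) ^ 2) * (y⁻¹ * (r y) ^ 2) := by rw [c6]; simp only [mul_assoc]
  have hinvol : ∀ x : G, (x⁻¹ * (r x) ^ 2)⁻¹ * (r (x⁻¹ * (r x) ^ 2)) ^ 2 = x := by
    intro x
    have h1 : r (x⁻¹ * (r x) ^ 2) = r x := by
      rw [hr3, cm_central_right h (pow_mem (hr1 x) 2), one_pow, mul_one, hinv,
        hr2 _ (pow_mem (hr1 x) 2), pow_two, inv_mul_cancel_left]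
    have c1 : (r x) ^ 2 * x = x * (r x) ^ 2 := central_of_mem h (pow_mem (hr1 x) 2) x
    rw [h1, mul_inv_rev, inv_inv, mul_assoc, ← c1, inv_mul_cancel_left]
  refine ⟨{ toFun := fun x => x⁻¹ * (r x) ^ 2
            invFun := fun x => x⁻¹ * (r x) ^ 2
            left_inv := hinvol
            right_inv := hinvol
            map_mul' := hs }, fun x => ⟨(r x) ^ 2, pow_mem (hr1 x) 2, rfl⟩⟩

/-- if an automorphism of a group of odd exponent inverts the elements modulo the derived
subgroup, then the group has an integral -/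
theorem integrable_of_aut {p k : ℕ} (hp : ∀ x : G, x ^ p = 1)
    (hk : 2 * k = p + 1) (σ : MulAut G) (hσ : ∀ x, ∃ c ∈ commutator G, σ x = x⁻¹ * c) :
    Integrable G := by
  let φ : Multiplicative ℤ →* MulAut G := zpowersHom (MulAut G) σ
  have hφ : φ (Multiplicative.ofAdd 1) = σ := by simp [φ]
  let H := G ⋊[φ] Multiplicative ℤ
  have hG : ∀ z ∈ commutator G, (SemidirectProduct.inl z : H) ∈ commutator H := by
    have : commutator G ≤ (commutator H).comap (SemidirectProduct.inl : G →* H) := by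
      rw [commutator_def, Subgroup.commutator_le]
      intro a _ b _
      rw [Subgroup.mem_comap, map_commutatorElement]
      exact cm_mem _ _
    exact fun z hz => this hz
  have hsq : ∀ g : G, (SemidirectProduct.inl g : H) ^ 2 ∈ commutator H := by
    intro g
    obtain ⟨c, hc, hσg⟩ := hσ g⁻¹
    have h1 : (SemidirectProduct.inl (σ g⁻¹) : H) =
        SemidirectProduct.inr (Multiplicative.ofAdd 1) * SemidirectProduct.inl g⁻¹ *
          (SemidirectProduct.inr (Multiplicative.ofAdd 1))⁻¹ := by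
      rw [← hφ, SemidirectProduct.inl_aut, map_inv SemidirectProduct.inr]
    have h2 : (SemidirectProduct.inl (g * σ g⁻¹) : H) ∈ commutator H := by
      rw [map_mul, h1, map_inv]
      have : (SemidirectProduct.inl g : H) * (SemidirectProduct.inr (Multiplicative.ofAdd 1) *
          (SemidirectProduct.inl g)⁻¹ * (SemidirectProduct.inr (Multiplicative.ofAdd 1))⁻¹) =
          ⁅(SemidirectProduct.inl g : H), SemidirectProduct.inr (Multiplicative.ofAdd 1)⁆ := by
        simp only [commutatorElement_def, mul_assoc]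
      rw [this]
      exact cm_mem _ _
    rw [hσg, inv_inv, ← mul_assoc, map_mul] at h2
    have h3 := mul_mem h2 (inv_mem (hG c hc))
    rw [mul_inv_cancel_right] at h3
    rw [pow_two, ← map_mul]
    exact h3
  have hrange : commutator H = (SemidirectProduct.inl : G →* H).range := by
    apply le_antisymm
    · rw [SemidirectProduct.range_inl_eq_ker_rightHom]
      exact Abelianization.commutator_subset_ker _
    · rintro _ ⟨g, rfl⟩
      have h1 : (SemidirectProduct.inl g : H) = ((SemidirectProduct.inl g : H) ^ 2) ^ k := by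
        rw [← pow_mul, hk, ← map_pow, pow_succ, hp, one_mul]
      rw [h1]
      exact pow_mem (hsq g) k
  exact ⟨H, inferInstance, ⟨(MulEquiv.subgroupCongr hrange).trans
    (MonoidHom.ofInjective SemidirectProduct.inl_injective).symm⟩⟩

end classTwo

/-! ### a non-abelian member of the variety -/

/-- the Heisenberg group over the field with `p` elements -/
@[ext] structure Heis (p : ℕ) : Type where
  /-- first entry -/
  a : ZMod p
  /-- second entry -/
  b : ZMod p
  /-- central entry -/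
  c : ZMod p

instance (p : ℕ) : Mul (Heis p) := ⟨fun x y => ⟨x.a + y.a, x.b + y.b, x.c + y.c + x.a * y.b⟩⟩

instance (p : ℕ) : One (Heis p) := ⟨⟨0, 0, 0⟩⟩

instance (p : ℕ) : Inv (Heis p) := ⟨fun x => ⟨-x.a, -x.b, -x.c + x.a * x.b⟩⟩

theorem heis_mul {p : ℕ} (x y : Heis p) :
    x * y = ⟨x.a + y.a, x.b + y.b, x.c + y.c + x.a * y.b⟩ := rfl

theorem heis_one {p : ℕ} : (1 : Heis p) = ⟨0, 0, 0⟩ := rfl

theorem heis_inv {p : ℕ} (x : Heis p) : x⁻¹ = ⟨-x.a, -x.b, -x.c + x.a * x.b⟩ := rfl

instance (p : ℕ) : Group (Heis p) :=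
  Group.ofLeftAxioms
    (fun x y z => by
      simp only [heis_mul, Heis.mk.injEq]
      refine ⟨by ring, by ring, by ring⟩)
    (fun x => by
      simp only [heis_mul, heis_one]
      ext <;> simp)
    (fun x => by
      simp only [heis_mul, heis_one, heis_inv, Heis.mk.injEq]
      refine ⟨by ring, by ring, by ring⟩)

theorem heis_pow {p : ℕ} (x : Heis p) (n : ℕ) :
    x ^ n = ⟨n * x.a, n * x.b, n * x.c + (n.choose 2 : ℕ) * (x.a * x.b)⟩ := by
  induction n with
  | zero => rw [pow_zero, heis_one]; simp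
  | succ n ih =>
    rw [pow_succ, ih, heis_mul]
    have h1 : ((n + 1).choose 2 : ℕ) = n + n.choose 2 := by
      rw [Nat.choose_succ_succ' n 1, Nat.choose_one_right]
    ext
    · push_cast; ring
    · push_cast; ring
    · simp only [h1]; push_cast; ring

theorem heis_exp {p : ℕ} (hp : p.Prime) (h2 : p ≠ 2) (x : Heis p) : x ^ p = 1 := by
  have h1 : ((p.choose 2 : ℕ) : ZMod p) = 0 := by
    rw [ZMod.natCast_eq_zero_iff]
    exact hp.dvd_choose_self (by norm_num) (lt_of_le_of_ne hp.two_le (Ne.symm h2))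
  rw [heis_pow, h1, heis_one]
  simp

theorem heis_cm {p : ℕ} (x y : Heis p) : ⁅x, y⁆ = ⟨0, 0, x.a * y.b - y.a * x.b⟩ := by
  rw [commutatorElement_def]
  simp only [heis_mul, heis_inv]
  ext
  · ring
  · ring
  · ring

theorem heis_two {p : ℕ} (x y z : Heis p) : ⁅⁅x, y⁆, z⁆ = 1 := by
  rw [heis_cm, heis_cm, heis_one]
  simp

/-- **A non-abelian variety in which every group has an integral.**  For every odd prime `p` the
variety of all groups of exponent dividing `p` and nilpotency class at most two contains a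
non-abelian group, and every group in it is the derived subgroup of some group. -/
theorem result (p : ℕ) (hp : p.Prime) (hodd : p ≠ 2) :
    (∃ (G : Type u) (_ : Group G), InVariety (laws p) G ∧ ∃ x y : G, x * y ≠ y * x) ∧
      ∀ (G : Type u) [Group G], InVariety (laws p) G → Integrable G := by
  constructor
  · refine ⟨ULift.{u} (Heis p), inferInstance, ?_, ⟨⟨1, 0, 0⟩⟩, ⟨⟨0, 1, 0⟩⟩, ?_⟩
    · rintro w (rfl | rfl) f
      · rw [map_pow]
        apply ULift.ext
        exact heis_exp hp hodd _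
      · rw [map_commutatorElement, map_commutatorElement]
        apply ULift.ext
        exact heis_two _ _ _
    · intro h
      have h1 : (⟨1, 0, 0⟩ : Heis p) * ⟨0, 1, 0⟩ = ⟨0, 1, 0⟩ * ⟨1, 0, 0⟩ :=
        congrArg ULift.down h
      have : Fact p.Prime := ⟨hp⟩
      simp only [heis_mul, Heis.mk.injEq] at h1
      have h2 := h1.2.2
      simp at h2
  · intro G _ hG
    have e1 : ∀ x : G, x ^ p = 1 := by
      intro x
      have := hG _ (Or.inl rfl) (FreeGroup.lift fun _ => x)
      simpa using this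
    have e2 : ClassTwo G := by
      intro x y z
      have h1 := hG _ (Or.inr rfl)
        (FreeGroup.lift fun n : ℕ => if n = 0 then x else if n = 1 then y else z)
      rw [map_commutatorElement, map_commutatorElement, FreeGroup.lift_apply_of,
        FreeGroup.lift_apply_of, FreeGroup.lift_apply_of] at h1
      simp only [if_true, one_ne_zero, if_false, OfNat.ofNat_ne_zero, OfNat.ofNat_ne_one] at h1
      exact commutatorElement_eq_one_iff_mul_comm.1 h1
    obtain ⟨k, hk⟩ : ∃ k, 2 * k = p + 1 := by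
      obtain ⟨m, hm⟩ := hp.odd_of_ne_two hodd
      exact ⟨m + 1, by omega⟩
    obtain ⟨σ, hσ⟩ := exists_aut e2 hp e1 hk
    exact integrable_of_aut e1 hk σ hσ

end Pool.Agent.Results.MP_fbf3cb_al.NonabelianVarietyAllIntegrable
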